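import Mathlib

set_option autoImplicit false

/-!
# Metric and edge metric dimension of hypercubes: the exceptions have density zero

`dim d` and `edim d` are the metric and the edge metric dimension of the hypercube `Q_d`.  Call
`d ≥ 1` exceptional if they differ.  It is known that exceptional `d` are even and that the two
dimensions differ by at most one.  We prove that `Q_d` with `d` exceptional has larger metric
dimension than `Q_{d-1}` (`edim d = dim (d - 1) = dim d - 1`), so that the number of exceptional
`d ≤ x` is at most `dim x`, and, with the doubling construction `dim (2 d + m - 1) ≤ 2 m` for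
`dim d ≤ m` (sign matrices), at most `2 ^ k` for `x ≤ k 2 ^ (k - 1) + 1`, hence `O (x / log x)`.
-/

namespace Pool.Agent.Results.MP_41989c_co.ExceptionsHaveDensityZero

open Finset

/-- The hypercube `Q_d`. -/
def cube (d : ℕ) : SimpleGraph (Fin d → Bool) where
  Adj x y := hammingDist x y = 1
  symm := ⟨fun x y h => by
    show hammingDist y x = 1
    rw [hammingDist_comm]; exact h⟩
  loopless := ⟨fun x h => by
    have h' : hammingDist x x = 1 := h
    simp at h'⟩

/-- The metric dimension of `Q_d`. -/
noncomputable def dim (d : ℕ) : ℕ :=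
  sInf {n : ℕ | ∃ S : Finset (Fin d → Bool), S.card = n ∧
    ∀ u v : Fin d → Bool, u ≠ v → ∃ s ∈ S, (cube d).dist u s ≠ (cube d).dist v s}

/-- The edge metric dimension of `Q_d`. -/
noncomputable def edim (d : ℕ) : ℕ :=
  sInf {n : ℕ | ∃ S : Finset (Fin d → Bool), S.Nonempty ∧ S.card = n ∧
    ∀ u v x y : Fin d → Bool, (cube d).Adj u v → (cube d).Adj x y →
      s(u, v) ≠ s(x, y) →
      ∃ s ∈ S, min ((cube d).dist u s) ((cube d).dist v s) ≠
        min ((cube d).dist x s) ((cube d).dist y s)}

/-! ### Distances -/

lemma exists_walk {d : ℕ} : ∀ (n : ℕ) (x y : Fin d → Bool), hammingDist x y = n →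
    ∃ w : (cube d).Walk x y, w.length = n := by
  intro n
  induction n with
  | zero =>
    intro x y h
    have : x = y := hammingDist_eq_zero.1 h
    subst this
    exact ⟨SimpleGraph.Walk.nil, rfl⟩
  | succ n ih =>
    intro x y h
    have hne : x ≠ y := by
      rintro rfl
      simp at h
    obtain ⟨j, hj⟩ := Function.ne_iff.1 hne
    set v := Function.update x j (y j) with hv
    have h1 : hammingDist x v = 1 := by
      unfold hammingDist
      rw [Finset.card_eq_one]
      refine ⟨j, ?_⟩
      ext i
      simp only [Finset.mem_filter, Finset.mem_univ, true_and, Finset.mem_singleton]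
      by_cases hi : i = j
      · subst hi
        simp [hv, hj]
      · simp [hv, hi]
    have h2 : hammingDist v y = n := by
      have h3 : (univ.filter (fun i => x i ≠ y i)) = insert j (univ.filter (fun i => v i ≠ y i)) := by
        ext i
        simp only [Finset.mem_filter, Finset.mem_univ, true_and, Finset.mem_insert]
        by_cases hi : i = j
        · subst hi
          simp [hj]
        · simp [hv, hi]
      have h4 : j ∉ univ.filter (fun i => v i ≠ y i) := by simp [hv]
      have h5 : hammingDist x y = (univ.filter (fun i => x i ≠ y i)).card := rfl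
      have h6 : hammingDist v y = (univ.filter (fun i => v i ≠ y i)).card := rfl
      rw [h3, Finset.card_insert_of_notMem h4, ← h6] at h5
      omega
    obtain ⟨w, hw⟩ := ih v y h2
    exact ⟨SimpleGraph.Walk.cons h1 w, by simp [hw]⟩

lemma ham_le_length {d : ℕ} {x y : Fin d → Bool} (w : (cube d).Walk x y) :
    hammingDist x y ≤ w.length := by
  induction w with
  | nil => simp
  | cons h p ih =>
    rename_i u v w'
    have h1 : hammingDist u v = 1 := h
    have := hammingDist_triangle u v w'
    simp only [SimpleGraph.Walk.length_cons]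
    omega

lemma dist_eq {d : ℕ} (x y : Fin d → Bool) : (cube d).dist x y = hammingDist x y := by
  obtain ⟨w, hw⟩ := exists_walk _ x y rfl
  apply le_antisymm
  · rw [← hw]
    exact SimpleGraph.dist_le w
  · obtain ⟨w', hw'⟩ := (SimpleGraph.Walk.reachable w).exists_walk_length_eq_dist
    rw [← hw']
    exact ham_le_length w'

/-! ### Signs -/

/-- The sign of a bit. -/
def sg (b : Bool) : ℤ := if b then 1 else -1

lemma sg_cases (b : Bool) : sg b = 1 ∨ sg b = -1 := by cases b <;> simp [sg]

/-- The distance without the coordinate `i`. -/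
def hh {d : ℕ} (i : Fin d) (u s : Fin d → Bool) : ℕ :=
  ∑ k, if k = i then 0 else if u k = s k then 0 else 1

lemma ham_eq {d : ℕ} (u s : Fin d → Bool) :
    2 * (hammingDist u s : ℤ) = ∑ k, (1 - sg (u k) * sg (s k)) := by
  unfold hammingDist
  rw [Finset.card_filter]
  push_cast
  rw [Finset.mul_sum]
  refine Finset.sum_congr rfl fun k _ => ?_
  cases u k <;> cases s k <;> simp [sg]

lemma hh_eq {d : ℕ} (i : Fin d) (u s : Fin d → Bool) :
    2 * (hh i u s : ℤ) = ∑ k, if k = i then 0 else (1 - sg (u k) * sg (s k)) := by
  unfold hh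
  push_cast
  rw [Finset.mul_sum]
  refine Finset.sum_congr rfl fun k _ => ?_
  split_ifs with h1 h2
  · simp
  · rw [h2]
    rcases sg_cases (s k) with h | h <;> simp [h]
  · revert h2
    cases u k <;> cases s k <;> simp [sg]

lemma ham_hh {d : ℕ} (i : Fin d) (u s : Fin d → Bool) :
    hammingDist u s = hh i u s + (if u i = s i then 0 else 1) := by
  unfold hammingDist hh
  rw [Finset.card_filter]
  rw [← Finset.add_sum_erase _ _ (Finset.mem_univ i), ← Finset.add_sum_erase (a := i) univ
    (fun k => if k = i then 0 else if u k = s k then 0 else 1) (Finset.mem_univ i)]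
  simp only [if_true, zero_add]
  rw [add_comm]
  congr 1
  · refine Finset.sum_congr rfl fun k hk => ?_
    have : k ≠ i := (Finset.mem_erase.1 hk).1
    by_cases h : u k = s k <;> simp [this, h]
  · by_cases h : u i = s i <;> simp [h]

lemma adj_iff {d : ℕ} {u v : Fin d → Bool} (h : (cube d).Adj u v) :
    ∃ i, u i ≠ v i ∧ ∀ k, k ≠ i → u k = v k := by
  have h1 : (univ.filter (fun i => u i ≠ v i)).card = 1 := h
  obtain ⟨i, hi⟩ := Finset.card_eq_one.1 h1
  refine ⟨i, ?_, fun k hk => ?_⟩
  · have : i ∈ univ.filter (fun i => u i ≠ v i) := by rw [hi]; simp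
    simpa using this
  · by_contra hc
    have : k ∈ univ.filter (fun i => u i ≠ v i) := by simpa using hc
    rw [hi] at this
    exact hk (by simpa using this)

lemma min_eq {d : ℕ} {u v : Fin d → Bool} {i : Fin d} (h1 : u i ≠ v i)
    (h2 : ∀ k, k ≠ i → u k = v k) (s : Fin d → Bool) :
    min ((cube d).dist u s) ((cube d).dist v s) = hh i u s := by
  have h3 : hh i v s = hh i u s := by
    unfold hh
    refine Finset.sum_congr rfl fun k _ => ?_
    by_cases hk : k = i
    · simp [hk]
    · simp [hk, h2 k hk]
  rw [dist_eq, dist_eq, ham_hh i u s, ham_hh i v s, h3]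
  by_cases h4 : u i = s i
  · simp [h4]
  · have h5 : v i = s i := by
      revert h1 h4
      cases u i <;> cases v i <;> cases s i <;> simp
    simp [h4, h5]

/-! ### Kernel vectors -/

/-- The kernel vectors with entries `0`, `1`, `-1` of the sign matrix of `S`. -/
def Ker {d : ℕ} (S : Finset (Fin d → Bool)) (z : Fin d → ℤ) : Prop :=
  (∀ j, z j = -1 ∨ z j = 0 ∨ z j = 1) ∧ ∀ s ∈ S, ∑ j, sg (s j) * z j = 0

/-- Only the zero kernel vector. -/
def VV {d : ℕ} (S : Finset (Fin d → Bool)) : Prop := ∀ z, Ker S z → z = 0

/-- Only the zero kernel vector among those with a zero entry. -/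
def EE {d : ℕ} (S : Finset (Fin d → Bool)) : Prop := ∀ z, Ker S z → (∃ j, z j = 0) → z = 0

lemma VV.EE {d : ℕ} {S : Finset (Fin d → Bool)} (h : VV S) : EE S := fun z hz _ => h z hz

lemma vertex_iff {d : ℕ} (S : Finset (Fin d → Bool)) :
    (∀ u v : Fin d → Bool, u ≠ v → ∃ s ∈ S, (cube d).dist u s ≠ (cube d).dist v s) ↔ VV S := by
  constructor
  · intro h z hz
    by_contra hne
    set u : Fin d → Bool := fun j => decide (z j = 1) with hu
    set v : Fin d → Bool := fun j => decide (z j = -1) with hv
    have hd : ∀ j, sg (u j) - sg (v j) = 2 * z j := by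
      intro j
      rcases hz.1 j with h | h | h <;> simp [hu, hv, h, sg]
    have huv : u ≠ v := by
      intro he
      apply hne
      ext j
      have := hd j
      rw [he] at this
      simp only [Pi.zero_apply]
      omega
    obtain ⟨s, hs, hs'⟩ := h u v huv
    apply hs'
    rw [dist_eq, dist_eq]
    have h1 := ham_eq u s
    have h2 := ham_eq v s
    have h3 := hz.2 s hs
    have h4 : ∑ k, (1 - sg (u k) * sg (s k)) = ∑ k, (1 - sg (v k) * sg (s k)) := by
      rw [← sub_eq_zero, ← Finset.sum_sub_distrib]
      have : ∑ x, (1 - sg (u x) * sg (s x) - (1 - sg (v x) * sg (s x))) =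
          -2 * ∑ j, sg (s j) * z j := by
        rw [Finset.mul_sum]
        refine Finset.sum_congr rfl fun j _ => ?_
        linear_combination (-sg (s j)) * hd j
      rw [this, h3, mul_zero]
    omega
  · intro h u v huv
    by_contra hc
    push Not at hc
    apply huv
    set z : Fin d → ℤ := fun j => if u j = v j then 0 else sg (u j) with hz
    have hd : ∀ j, sg (u j) - sg (v j) = 2 * z j := by
      intro j
      simp only [hz]
      cases u j <;> cases v j <;> simp [sg]
    have hK : Ker S z := by
      constructor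
      · intro j
        simp only [hz]
        split_ifs
        · simp
        · rcases sg_cases (u j) with h | h <;> simp [h]
      · intro s hs
        have h0 := hc s hs
        rw [dist_eq, dist_eq] at h0
        have h1 := ham_eq u s
        have h2 := ham_eq v s
        rw [h0] at h1
        have h4 : ∑ k, (1 - sg (u k) * sg (s k)) - ∑ k, (1 - sg (v k) * sg (s k)) = 0 := by
          rw [← h1, ← h2, sub_self]
        rw [← Finset.sum_sub_distrib] at h4
        have : ∑ x, (1 - sg (u x) * sg (s x) - (1 - sg (v x) * sg (s x))) =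
            -2 * ∑ j, sg (s j) * z j := by
          rw [Finset.mul_sum]
          refine Finset.sum_congr rfl fun j _ => ?_
          linear_combination (-sg (s j)) * hd j
        rw [this] at h4
        omega
    have h0 := h z hK
    ext j
    have := congrFun h0 j
    simp only [hz, Pi.zero_apply] at this
    by_contra hne
    rw [if_neg (by simpa using hne)] at this
    rcases sg_cases (u j) with h | h <;> omega

lemma parity {d : ℕ} (s : Fin d → Bool) (z : Fin d → ℤ) :
    (2 : ℤ) ∣ ∑ j, sg (s j) * z j - ∑ j, z j := by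
  rw [← Finset.sum_sub_distrib]
  refine Finset.dvd_sum fun j _ => ?_
  rcases sg_cases (s j) with h | h
  · simp [h]
  · exact ⟨-z j, by rw [h]; ring⟩

lemma edge_iff {d : ℕ} (hd : 3 ≤ d) (S : Finset (Fin d → Bool)) :
    (∀ u v x y : Fin d → Bool, (cube d).Adj u v → (cube d).Adj x y →
      s(u, v) ≠ s(x, y) →
      ∃ s ∈ S, min ((cube d).dist u s) ((cube d).dist v s) ≠
        min ((cube d).dist x s) ((cube d).dist y s)) ↔ EE S := by
  constructor
  · rintro h z hz ⟨j0, hj0⟩
    by_contra hne
    set u : Fin d → Bool := fun j => decide (z j = 1) with hu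
    set v : Fin d → Bool := fun j => decide (z j = -1) with hv
    have hd' : ∀ j, sg (u j) - sg (v j) = 2 * z j := by
      intro j
      rcases hz.1 j with h | h | h <;> simp [hu, hv, h, sg]
    have huv : u ≠ v := by
      intro he
      apply hne
      ext j
      have := hd' j
      rw [he] at this
      simp only [Pi.zero_apply]
      omega
    have hu0 : u j0 = false := by simp [hu, hj0]
    have hv0 : v j0 = false := by simp [hv, hj0]
    have hadj : ∀ w : Fin d → Bool, w j0 = false → (cube d).Adj w (Function.update w j0 true) := by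
      intro w hw
      show (univ.filter (fun i => w i ≠ Function.update w j0 true i)).card = 1
      rw [Finset.card_eq_one]
      refine ⟨j0, ?_⟩
      ext i
      simp only [Finset.mem_filter, Finset.mem_univ, true_and, Finset.mem_singleton]
      by_cases hi : i = j0
      · subst hi
        simp [hw]
      · simp [hi]
    have hmin : ∀ w : Fin d → Bool, w j0 = false → ∀ s,
        min ((cube d).dist w s) ((cube d).dist (Function.update w j0 true) s) = hh j0 w s := by
      intro w hw s
      refine min_eq (by simp [hw]) (fun k hk => ?_) s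
      simp [hk]
    obtain ⟨s, hs, hs'⟩ := h u (Function.update u j0 true) v (Function.update v j0 true)
      (hadj u hu0) (hadj v hv0) (by
        intro he
        rcases Sym2.eq_iff.1 he with ⟨h1, _⟩ | ⟨h1, _⟩
        · exact huv h1
        · have := congrFun h1 j0
          simp [hu0] at this)
    apply hs'
    rw [hmin u hu0, hmin v hv0]
    have h1 := hh_eq j0 u s
    have h2 := hh_eq j0 v s
    have h3 := hz.2 s hs
    have h4 : (∑ k, if k = j0 then 0 else (1 - sg (u k) * sg (s k))) =
        ∑ k, if k = j0 then 0 else (1 - sg (v k) * sg (s k)) := by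
      rw [← sub_eq_zero, ← Finset.sum_sub_distrib]
      have : ∑ x, ((if x = j0 then 0 else (1 - sg (u x) * sg (s x))) -
          (if x = j0 then 0 else (1 - sg (v x) * sg (s x)))) = -2 * ∑ j, sg (s j) * z j := by
        rw [Finset.mul_sum]
        refine Finset.sum_congr rfl fun j _ => ?_
        by_cases hj : j = j0
        · subst hj
          simp [hj0]
        · simp only [hj, if_false]
          linear_combination (-sg (s j)) * hd' j
      rw [this, h3, mul_zero]
    omega
  · intro h u v x y huv hxy hne
    by_contra hc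
    push Not at hc
    obtain ⟨i, hi1, hi2⟩ := adj_iff huv
    obtain ⟨j, hj1, hj2⟩ := adj_iff hxy
    have hc' : ∀ s ∈ S, hh i u s = hh j x s := by
      intro s hs
      have := hc s hs
      rwa [min_eq hi1 hi2, min_eq hj1 hj2] at this
    by_cases hij : i = j
    · subst hij
      set z : Fin d → ℤ := fun k => if k = i then 0 else if u k = x k then 0 else sg (u k) with hz
      have hd' : ∀ k, k ≠ i → sg (u k) - sg (x k) = 2 * z k := by
        intro k hk
        simp only [hz, hk, if_false]
        cases u k <;> cases x k <;> simp [sg]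
      have hK : Ker S z := by
        constructor
        · intro k
          simp only [hz]
          split_ifs
          · simp
          · simp
          · rcases sg_cases (u k) with h | h <;> simp [h]
        · intro s hs
          have h0 := hc' s hs
          have h1 := hh_eq i u s
          have h2 := hh_eq i x s
          rw [h0] at h1
          have h4 : (∑ k, if k = i then 0 else (1 - sg (u k) * sg (s k))) -
              (∑ k, if k = i then 0 else (1 - sg (x k) * sg (s k))) = 0 := by
            rw [← h1, ← h2, sub_self]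
          rw [← Finset.sum_sub_distrib] at h4
          have : ∑ k, ((if k = i then 0 else (1 - sg (u k) * sg (s k))) -
              (if k = i then 0 else (1 - sg (x k) * sg (s k)))) = -2 * ∑ j, sg (s j) * z j := by
            rw [Finset.mul_sum]
            refine Finset.sum_congr rfl fun k _ => ?_
            by_cases hk : k = i
            · subst hk
              simp [hz]
            · simp only [hk, if_false]
              linear_combination (-sg (s k)) * hd' k hk
          rw [this] at h4
          omega
      have h0 := h z hK ⟨i, by simp [hz]⟩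
      have hux : ∀ k, k ≠ i → u k = x k := by
        intro k hk
        have := congrFun h0 k
        simp only [hz, Pi.zero_apply, hk, if_false] at this
        by_contra hne'
        rw [if_neg (by simpa using hne')] at this
        rcases sg_cases (u k) with h | h <;> omega
      apply hne
      rw [Sym2.eq_iff]
      by_cases hui : u i = x i
      · left
        constructor
        · ext k
          by_cases hk : k = i
          · subst hk; rw [hui]
          · rw [hux k hk]
        · ext k
          by_cases hk : k = i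
          · subst hk
            have : v k = y k := by
              revert hi1 hj1
              rw [hui]
              cases x k <;> cases v k <;> cases y k <;> simp
            rw [this]
          · rw [← hi2 k hk, hux k hk, hj2 k hk]
      · right
        constructor
        · ext k
          by_cases hk : k = i
          · subst hk
            have : u k = y k := by
              revert hui hj1
              cases u k <;> cases x k <;> cases y k <;> simp
            rw [this]
          · rw [hux k hk, hj2 k hk]
        · ext k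
          by_cases hk : k = i
          · subst hk
            have : v k = x k := by
              revert hui hi1
              cases u k <;> cases x k <;> cases v k <;> simp
            rw [this]
          · rw [← hi2 k hk, hux k hk]
    · -- different directions
      set z : Fin d → ℤ := fun k => if k = i ∨ k = j then 0 else if u k = x k then 0 else sg (u k)
        with hz
      have hd' : ∀ k, k ≠ i → k ≠ j → sg (u k) - sg (x k) = 2 * z k := by
        intro k hk hk'
        simp only [hz, hk, hk', or_self, if_false]
        cases u k <;> cases x k <;> simp [sg]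
      have hmain : ∀ s ∈ S, 2 * ∑ k, sg (s k) * z k + sg (u j) * sg (s j) - sg (x i) * sg (s i) = 0 := by
        intro s hs
        have h0 := hc' s hs
        have h1 := hh_eq i u s
        have h2 := hh_eq j x s
        rw [h0] at h1
        have h4 : (∑ k, if k = i then 0 else (1 - sg (u k) * sg (s k))) -
            (∑ k, if k = j then 0 else (1 - sg (x k) * sg (s k))) = 0 := by
          rw [← h1, ← h2, sub_self]
        rw [← Finset.sum_sub_distrib] at h4
        have h5 : ∀ k, ((if k = i then 0 else (1 - sg (u k) * sg (s k))) -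
            (if k = j then 0 else (1 - sg (x k) * sg (s k)))) =
            -2 * (sg (s k) * z k) + (if k = j then (1 - sg (u j) * sg (s j)) else 0) -
              (if k = i then (1 - sg (x i) * sg (s i)) else 0) := by
          intro k
          by_cases hk : k = i
          · subst hk
            simp [hz, hij]
          · by_cases hk' : k = j
            · subst hk'
              simp [hz, hk]
            · simp only [hk, hk', if_false]
              linear_combination (-sg (s k)) * hd' k hk hk'
        rw [Finset.sum_congr rfl (fun k _ => h5 k), Finset.sum_sub_distrib, Finset.sum_add_distrib,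
          ← Finset.mul_sum, Finset.sum_ite_eq', Finset.sum_ite_eq'] at h4
        simp only [Finset.mem_univ, if_true] at h4
        linarith
      -- the two columns are equal up to sign
      obtain ⟨ε, hε, hε'⟩ : ∃ ε : ℤ, (ε = 1 ∨ ε = -1) ∧
          ∀ s ∈ S, sg (s j) * sg (u j) + sg (s i) * (ε * sg (x i)) = 0 := by
        rcases Int.emod_two_eq_zero_or_one (∑ k, z k) with h2 | h2
        · refine ⟨-1, Or.inr rfl, fun s hs => ?_⟩
          have h3 := hmain s hs
          obtain ⟨c, hc3⟩ := parity s z
          rcases sg_cases (u j) with a | a <;> rcases sg_cases (s j) with b | b <;>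
            rcases sg_cases (x i) with e | e <;> rcases sg_cases (s i) with f | f <;>
            simp only [a, b, e, f] at h3 ⊢ <;> omega
        · refine ⟨1, Or.inl rfl, fun s hs => ?_⟩
          have h3 := hmain s hs
          obtain ⟨c, hc3⟩ := parity s z
          rcases sg_cases (u j) with a | a <;> rcases sg_cases (s j) with b | b <;>
            rcases sg_cases (x i) with e | e <;> rcases sg_cases (s i) with f | f <;>
            simp only [a, b, e, f] at h3 ⊢ <;> omega
      set w : Fin d → ℤ := fun k => if k = j then sg (u j) else if k = i then ε * sg (x i) else 0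
        with hw
      have hKw : Ker S w := by
        constructor
        · intro k
          simp only [hw]
          split_ifs
          · rcases sg_cases (u j) with h | h <;> simp [h]
          · rcases hε with h | h <;> rcases sg_cases (x i) with h' | h' <;> simp [h, h']
          · simp
        · intro s hs
          have h5 : ∀ k, sg (s k) * w k = (if k = j then sg (s j) * sg (u j) else 0) +
              (if k = i then sg (s i) * (ε * sg (x i)) else 0) := by
            intro k
            simp only [hw]
            by_cases hk : k = j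
            · subst hk
              have : k ≠ i := fun h => hij h.symm
              simp [this]
            · by_cases hk' : k = i
              · subst hk'
                simp [hk]
              · simp [hk, hk']
          rw [Finset.sum_congr rfl (fun k _ => h5 k), Finset.sum_add_distrib,
            Finset.sum_ite_eq', Finset.sum_ite_eq']
          simpa using hε' s hs
      obtain ⟨k, hk1, hk2⟩ : ∃ k : Fin d, k ≠ j ∧ k ≠ i := by
        by_contra hcon
        push Not at hcon
        have h6 : (univ : Finset (Fin d)) ⊆ {j, i} := by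
          intro k _
          simp only [Finset.mem_insert, Finset.mem_singleton]
          by_cases hk : k = j
          · exact Or.inl hk
          · exact Or.inr (hcon k hk)
        have h7 := Finset.card_le_card h6
        rw [Finset.card_univ, Fintype.card_fin] at h7
        have h8 := Finset.card_insert_le j ({i} : Finset (Fin d))
        rw [Finset.card_singleton] at h8
        omega
      have h0 := h w hKw ⟨k, by simp [hw, hk1, hk2]⟩
      have := congrFun h0 j
      simp only [hw, if_true, Pi.zero_apply] at this
      rcases sg_cases (u j) with h | h <;> omega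

/-! ### The two dimensions -/

lemma VV_univ (d : ℕ) : VV (univ : Finset (Fin d → Bool)) := by
  rw [← vertex_iff]
  intro u v huv
  refine ⟨u, Finset.mem_univ _, ?_⟩
  rw [dist_eq, dist_eq, hammingDist_self]
  intro h
  exact huv (hammingDist_eq_zero.1 h.symm).symm

lemma dim_le {d : ℕ} {S : Finset (Fin d → Bool)} (h : VV S) : dim d ≤ S.card :=
  Nat.sInf_le ⟨S, rfl, (vertex_iff S).2 h⟩

lemma exists_dim (d : ℕ) : ∃ S : Finset (Fin d → Bool), S.card = dim d ∧ VV S := by
  have h : dim d ∈ {n : ℕ | ∃ S : Finset (Fin d → Bool), S.card = n ∧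
      ∀ u v : Fin d → Bool, u ≠ v → ∃ s ∈ S, (cube d).dist u s ≠ (cube d).dist v s} :=
    Nat.sInf_mem ⟨_, univ, rfl, (vertex_iff _).2 (VV_univ d)⟩
  obtain ⟨S, hS, hS'⟩ := h
  exact ⟨S, hS, (vertex_iff S).1 hS'⟩

lemma EE.nonempty {d : ℕ} (hd : 3 ≤ d) {S : Finset (Fin d → Bool)} (h : EE S) : S.Nonempty := by
  by_contra hS
  rw [Finset.not_nonempty_iff_eq_empty] at hS
  subst hS
  set z : Fin d → ℤ := fun k => if k = ⟨0, by omega⟩ then 1 else 0 with hz
  have h0 := h z ⟨fun j => by simp only [hz]; split_ifs <;> simp, fun s hs => by simp at hs⟩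
    ⟨⟨1, by omega⟩, by simp [hz]⟩
  have := congrFun h0 ⟨0, by omega⟩
  simp [hz] at this

lemma edim_le {d : ℕ} (hd : 3 ≤ d) {S : Finset (Fin d → Bool)} (h : EE S) : edim d ≤ S.card :=
  Nat.sInf_le ⟨S, h.nonempty hd, rfl, (edge_iff hd S).2 h⟩

lemma exists_edim {d : ℕ} (hd : 3 ≤ d) : ∃ S : Finset (Fin d → Bool), S.card = edim d ∧ EE S := by
  have h : edim d ∈ {n : ℕ | ∃ S : Finset (Fin d → Bool), S.Nonempty ∧ S.card = n ∧
      ∀ u v x y : Fin d → Bool, (cube d).Adj u v → (cube d).Adj x y → s(u, v) ≠ s(x, y) →
        ∃ s ∈ S, min ((cube d).dist u s) ((cube d).dist v s) ≠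
          min ((cube d).dist x s) ((cube d).dist y s)} :=
    Nat.sInf_mem ⟨_, univ, (VV_univ d).EE.nonempty hd, rfl, (edge_iff hd _).2 (VV_univ d).EE⟩
  obtain ⟨S, -, hS, hS'⟩ := h
  exact ⟨S, hS, (edge_iff hd S).1 hS'⟩

lemma edim_le_dim {d : ℕ} (hd : 3 ≤ d) : edim d ≤ dim d := by
  obtain ⟨S, hS, hV⟩ := exists_dim d
  rw [← hS]
  exact edim_le hd hV.EE

/-- Drop the last coordinate. -/
lemma dim_le_of_EE {d : ℕ} {S : Finset (Fin (d + 1) → Bool)} (h : EE S) : dim d ≤ S.card := by
  classical
  refine (dim_le (S := S.image (fun s j => s (Fin.castSucc j))) ?_).trans Finset.card_image_le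
  intro z hz
  have h0 := h (Fin.snoc z 0) ⟨fun j => ?_, fun s hs => ?_⟩ ⟨Fin.last d, by simp⟩
  · ext j
    have := congrFun h0 (Fin.castSucc j)
    simpa using this
  · refine Fin.lastCases ?_ (fun j => ?_) j
    · simp
    · simpa using hz.1 j
  · rw [Fin.sum_univ_castSucc]
    simp only [Fin.snoc_castSucc, Fin.snoc_last, mul_zero, add_zero]
    exact hz.2 _ (Finset.mem_image_of_mem _ hs)

lemma dim_succ (d : ℕ) : dim d ≤ dim (d + 1) := by
  obtain ⟨S, hS, hV⟩ := exists_dim (d + 1)
  rw [← hS]
  exact dim_le_of_EE hV.EE

lemma dim_mono : Monotone dim := monotone_nat_of_le_succ dim_succ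

lemma VV_of_odd {d : ℕ} (hd : 3 ≤ d) (ho : Odd d) {S : Finset (Fin d → Bool)} (h : EE S) :
    VV S := by
  intro z hz
  by_contra hne
  have hz' : ∀ j, z j ≠ 0 := fun j hj => hne (h z hz ⟨j, hj⟩)
  obtain ⟨s, hs⟩ := h.nonempty hd
  have h1 := hz.2 s hs
  have h2 : (2 : ℤ) ∣ ∑ j, sg (s j) * z j - ∑ _j : Fin d, (1 : ℤ) := by
    rw [← Finset.sum_sub_distrib]
    refine Finset.dvd_sum fun j _ => ?_
    have h3 := hz' j
    rcases hz.1 j with h | h | h <;> rcases sg_cases (s j) with h' | h' <;>
      simp [h, h'] at h3 ⊢ <;> omega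
  rw [h1] at h2
  simp only [Finset.sum_const, Finset.card_univ, Fintype.card_fin, smul_eq_mul, mul_one] at h2
  obtain ⟨c, hc⟩ := ho
  subst hc
  push_cast at h2
  simp at h2
  omega

/-- One more coordinate needs at most one more landmark. -/
lemma dim_succ_le {d : ℕ} (hd : 1 ≤ d) : dim (d + 1) ≤ dim d + 1 := by
  classical
  obtain ⟨S, hS, hV⟩ := exists_dim d
  obtain ⟨s0, hs0⟩ : S.Nonempty := by
    by_contra hS0
    rw [Finset.not_nonempty_iff_eq_empty] at hS0
    subst hS0
    have h0 := hV (fun _ => 1) ⟨fun j => Or.inr (Or.inr rfl), fun s hs => by simp at hs⟩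
    have := congrFun h0 ⟨0, by omega⟩
    simp at this
  have hV' : VV (insert (Fin.snoc s0 false : Fin (d + 1) → Bool)
      (S.image (fun s => (Fin.snoc s true : Fin (d + 1) → Bool)))) := by
    intro z hz
    have h1 : ∀ s ∈ S, ∑ j : Fin d, sg (s j) * z (Fin.castSucc j) + z (Fin.last d) = 0 := by
      intro s hs
      have := hz.2 _ (Finset.mem_insert_of_mem (Finset.mem_image_of_mem _ hs))
      rw [Fin.sum_univ_castSucc] at this
      simpa [sg] using this
    have h2 : ∑ j : Fin d, sg (s0 j) * z (Fin.castSucc j) - z (Fin.last d) = 0 := by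
      have := hz.2 _ (Finset.mem_insert_self _ _)
      rw [Fin.sum_univ_castSucc] at this
      simpa [sg, sub_eq_add_neg] using this
    have h3 := h1 s0 hs0
    have h4 : z (Fin.last d) = 0 := by linarith
    have h5 := hV (fun j => z (Fin.castSucc j)) ⟨fun j => hz.1 _, fun s hs => by
      have := h1 s hs
      rwa [h4, add_zero] at this⟩
    ext j
    refine Fin.lastCases ?_ (fun j => ?_) j
    · exact h4
    · exact congrFun h5 j
  have h6 := dim_le hV'
  have h7 := Finset.card_insert_le (Fin.snoc s0 false : Fin (d + 1) → Bool)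
    (S.image (fun s => (Fin.snoc s true : Fin (d + 1) → Bool)))
  have h8 : (S.image (fun s => (Fin.snoc s true : Fin (d + 1) → Bool))).card ≤ S.card :=
    Finset.card_image_le
  omega

/-- The exceptional dimensions. -/
theorem exceptional' {d : ℕ} (hd : 3 ≤ d) (h : dim d ≠ edim d) :
    Even d ∧ dim (d - 1) ≤ edim d ∧ edim d < dim d := by
  have h1 : edim d < dim d := lt_of_le_of_ne (edim_le_dim hd) (Ne.symm h)
  obtain ⟨S, hS, hE⟩ := exists_edim hd
  refine ⟨?_, ?_, h1⟩
  · by_contra ho
    rw [Nat.not_even_iff_odd] at ho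
    have := dim_le (VV_of_odd hd ho hE)
    omega
  · obtain ⟨d, rfl⟩ : ∃ e, d = e + 1 := ⟨d - 1, by omega⟩
    rw [Nat.add_sub_cancel, ← hS]
    exact dim_le_of_EE hE

/-- The exceptional dimensions. -/
theorem exceptional {d : ℕ} (hd : 3 ≤ d) (h : dim d ≠ edim d) :
    Even d ∧ edim d = dim (d - 1) ∧ dim d = dim (d - 1) + 1 := by
  obtain ⟨h1, h2, h3⟩ := exceptional' hd h
  have h4 : dim d ≤ dim (d - 1) + 1 := by
    have := dim_succ_le (d := d - 1) (by omega)
    rwa [Nat.sub_add_cancel (by omega)] at this
  exact ⟨h1, by omega, by omega⟩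

/-! ### Dimensions one and two -/

/-- `S` resolves the vertices. -/
def RV (d : ℕ) (S : Finset (Fin d → Bool)) : Prop :=
  ∀ u v : Fin d → Bool, u ≠ v → ∃ s ∈ S, hammingDist u s ≠ hammingDist v s

/-- `S` resolves the edges. -/
def RE (d : ℕ) (S : Finset (Fin d → Bool)) : Prop :=
  ∀ u v x y : Fin d → Bool, hammingDist u v = 1 → hammingDist x y = 1 → s(u, v) ≠ s(x, y) →
    ∃ s ∈ S, min (hammingDist u s) (hammingDist v s) ≠ min (hammingDist x s) (hammingDist y s)

instance (d : ℕ) (S : Finset (Fin d → Bool)) : Decidable (RV d S) := by unfold RV; infer_instance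

instance (d : ℕ) (S : Finset (Fin d → Bool)) : Decidable (RE d S) := by unfold RE; infer_instance

lemma dim_eq {d n : ℕ} {S : Finset (Fin d → Bool)} (hS : S.card = n) (h : RV d S)
    (h' : ∀ S' : Finset (Fin d → Bool), S'.card < n → ¬ RV d S') : dim d = n := by
  unfold dim
  simp only [dist_eq]
  apply le_antisymm
  · exact Nat.sInf_le ⟨S, hS, h⟩
  · have hmem : sInf {n : ℕ | ∃ S : Finset (Fin d → Bool), S.card = n ∧
        ∀ u v : Fin d → Bool, u ≠ v → ∃ s ∈ S, hammingDist u s ≠ hammingDist v s} ∈
        {n : ℕ | ∃ S : Finset (Fin d → Bool), S.card = n ∧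
        ∀ u v : Fin d → Bool, u ≠ v → ∃ s ∈ S, hammingDist u s ≠ hammingDist v s} :=
      Nat.sInf_mem ⟨n, S, hS, h⟩
    obtain ⟨S', hS', hR⟩ := hmem
    by_contra hc
    exact h' S' (by rw [hS']; omega) hR

lemma edim_eq {d n : ℕ} {S : Finset (Fin d → Bool)} (hS0 : S.Nonempty) (hS : S.card = n)
    (h : RE d S) (h' : ∀ S' : Finset (Fin d → Bool), S'.Nonempty → S'.card < n → ¬ RE d S') :
    edim d = n := by
  unfold edim
  simp only [dist_eq]
  apply le_antisymm
  · exact Nat.sInf_le ⟨S, hS0, hS, fun u v x y h1 h2 h3 => h u v x y h1 h2 h3⟩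
  · have hmem : sInf {n : ℕ | ∃ S : Finset (Fin d → Bool), S.Nonempty ∧ S.card = n ∧
        ∀ u v x y : Fin d → Bool, (cube d).Adj u v → (cube d).Adj x y → s(u, v) ≠ s(x, y) →
        ∃ s ∈ S, min (hammingDist u s) (hammingDist v s) ≠
          min (hammingDist x s) (hammingDist y s)} ∈
        {n : ℕ | ∃ S : Finset (Fin d → Bool), S.Nonempty ∧ S.card = n ∧
        ∀ u v x y : Fin d → Bool, (cube d).Adj u v → (cube d).Adj x y → s(u, v) ≠ s(x, y) →
        ∃ s ∈ S, min (hammingDist u s) (hammingDist v s) ≠
          min (hammingDist x s) (hammingDist y s)} :=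
      Nat.sInf_mem ⟨n, S, hS0, hS, fun u v x y h1 h2 h3 => h u v x y h1 h2 h3⟩
    obtain ⟨S', hS0', hS', hR⟩ := hmem
    by_contra hc
    exact h' S' hS0' (by rw [hS']; omega) (fun u v x y h1 h2 h3 => hR u v x y h1 h2 h3)

lemma dim_one : dim 1 = 1 :=
  dim_eq (S := {![false]}) rfl (by decide) (fun S' h => by
    have : S' = ∅ := Finset.card_eq_zero.1 (by omega)
    subst this
    decide)

lemma edim_one : edim 1 = 1 :=
  edim_eq (S := {![false]}) (by simp) rfl (by decide) (fun S' h0 h => by
    have := h0.card_pos
    omega)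

lemma dim_two : dim 2 = 2 :=
  dim_eq (S := {![false, false], ![false, true]}) (by decide) (by decide +kernel) (fun S' h => by
    have : S'.card = 0 ∨ S'.card = 1 := by omega
    rcases this with h | h
    · have : S' = ∅ := Finset.card_eq_zero.1 h
      subst this
      decide
    · obtain ⟨s, rfl⟩ := Finset.card_eq_one.1 h
      revert s
      decide +kernel)

lemma edim_two : edim 2 = 2 :=
  edim_eq (S := {![false, false], ![false, true]}) (by simp) (by decide) (by decide +kernel)
    (fun S' h0 h => by
      have := h0.card_pos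
      obtain ⟨s, rfl⟩ := Finset.card_eq_one.1 (show S'.card = 1 by omega)
      revert s
      decide +kernel)

lemma three_le {d : ℕ} (hd : 1 ≤ d) (h : dim d ≠ edim d) : 3 ≤ d := by
  by_contra hc
  have : d = 1 ∨ d = 2 := by omega
  rcases this with rfl | rfl
  · rw [dim_one, edim_one] at h
    exact h rfl
  · rw [dim_two, edim_two] at h
    exact h rfl

/-! ### Counting the exceptional dimensions -/

open Classical in
/-- The exceptional dimensions `d` with `1 ≤ d ≤ x`. -/
noncomputable def Exc (x : ℕ) : Finset ℕ := (Finset.Icc 1 x).filter (fun d => dim d ≠ edim d)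

lemma card_Exc (x : ℕ) : (Exc x).card ≤ dim x := by
  classical
  have h1 : ∀ d ∈ Exc x, 3 ≤ d ∧ d ≤ x ∧ dim d ≠ edim d := by
    intro d hd
    have hd' : 1 ≤ d ∧ d ≤ x ∧ dim d ≠ edim d := by simpa [Exc, and_assoc] using hd
    exact ⟨three_le hd'.1 hd'.2.2, hd'.2⟩
  have hlt : ∀ d ∈ Exc x, ∀ d' ∈ Exc x, d < d' → dim d < dim d' := by
    intro d _ d' hd' hlt
    obtain ⟨a1, a2, a3⟩ := h1 d' hd'
    obtain ⟨-, b2, b3⟩ := exceptional' a1 a3
    have : dim d ≤ dim (d' - 1) := dim_mono (by omega)
    omega
  have h2 : (Exc x).card ≤ (Finset.Icc 1 (dim x)).card := by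
    refine Finset.card_le_card_of_injOn dim (fun d hd => ?_) (fun d hd d' hd' he => ?_)
    · obtain ⟨a1, a2, a3⟩ := h1 d hd
      obtain ⟨-, b2, b3⟩ := exceptional' a1 a3
      simp only [Finset.coe_Icc, Set.mem_Icc]
      exact ⟨by omega, dim_mono a2⟩
    · rcases lt_trichotomy d d' with h | h | h
      · have := hlt d hd d' hd' h; omega
      · exact h
      · have := hlt d' hd' d hd h; omega
  simpa using h2

/-! ### The doubling construction -/

/-- There is a sign matrix with `m` rows and `d` columns without nonzero kernel vector with entries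
`0`, `1`, `-1`. -/
def Det (m d : ℕ) : Prop :=
  ∃ (ι κ : Type) (_ : Fintype ι) (_ : Fintype κ), Fintype.card ι = m ∧ Fintype.card κ = d ∧
    ∃ A : ι → κ → ℤ, (∀ i j, A i j = 1 ∨ A i j = -1) ∧
      ∀ z : κ → ℤ, (∀ j, z j = -1 ∨ z j = 0 ∨ z j = 1) → (∀ i, ∑ j, A i j * z j = 0) → z = 0

lemma det_one : Det 1 1 :=
  ⟨Unit, Unit, inferInstance, inferInstance, rfl, rfl, fun _ _ => 1, fun _ _ => Or.inl rfl,
    fun z _ h => by
      ext j
      have := h ()
      simpa using this⟩

lemma det_double {m d : ℕ} (hm : 1 ≤ m) (h : Det m d) : Det (2 * m) (2 * d + (m - 1)) := by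
  classical
  obtain ⟨ι, κ, _, _, hι, hκ, A, hA, hK⟩ := h
  have : Nonempty ι := Fintype.card_pos_iff.1 (by omega)
  obtain ⟨i0⟩ := this
  refine ⟨ι ⊕ ι, (κ ⊕ κ) ⊕ {i : ι // i ≠ i0}, inferInstance, inferInstance, ?_, ?_,
    Sum.elim (fun i => Sum.elim (Sum.elim (A i) (A i)) (fun _ => 1))
      (fun i => Sum.elim (Sum.elim (A i) (fun j => -A i j)) (fun c => if i = c then 1 else -1)),
    ?_, ?_⟩
  · rw [Fintype.card_sum, hι]; ring
  · rw [Fintype.card_sum, Fintype.card_sum, hκ, Fintype.card_subtype_compl,
      Fintype.card_subtype_eq, hι]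
    ring
  · rintro (i | i) ((j | j) | c)
    · simpa using hA i j
    · simpa using hA i j
    · simp
    · simpa using hA i j
    · rcases hA i j with h | h <;> simp [h]
    · by_cases h : i = (c : ι) <;> simp [h]
  · intro z hz hker
    set X : ι → ℤ := fun i => ∑ j, A i j * z (Sum.inl (Sum.inl j)) with hX
    set Y : ι → ℤ := fun i => ∑ j, A i j * z (Sum.inl (Sum.inr j)) with hY
    have top : ∀ i, X i + Y i + ∑ c : {i : ι // i ≠ i0}, z (Sum.inr c) = 0 := by
      intro i
      have := hker (Sum.inl i)
      simpa [Fintype.sum_sum_type, hX, hY] using this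
    have bot : ∀ i, X i - Y i + ∑ c : {i : ι // i ≠ i0}, (if i = c then 1 else -1) * z (Sum.inr c) = 0 := by
      intro i
      have := hker (Sum.inr i)
      simpa [Fintype.sum_sum_type, hX, hY, sub_eq_add_neg] using this
    have h1 : ∀ i, X i + ∑ c : {i : ι // i ≠ i0}, (if i = c then 1 else 0) * z (Sum.inr c) = 0 := by
      intro i
      have e : ∑ c : {i : ι // i ≠ i0}, (if i = c then (1 : ℤ) else -1) * z (Sum.inr c) =
          2 * ∑ c : {i : ι // i ≠ i0}, (if i = c then 1 else 0) * z (Sum.inr c) -
            ∑ c : {i : ι // i ≠ i0}, z (Sum.inr c) := by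
        rw [Finset.mul_sum, ← Finset.sum_sub_distrib]
        refine Finset.sum_congr rfl fun c _ => ?_
        split_ifs <;> ring
      have t := top i
      have b := bot i
      rw [e] at b
      linarith
    have hpar : ∀ i, (2 : ℤ) ∣ X i - ∑ j, z (Sum.inl (Sum.inl j)) := by
      intro i
      simp only [hX]
      rw [← Finset.sum_sub_distrib]
      refine Finset.dvd_sum fun j _ => ?_
      rcases hA i j with h | h
      · simp [h]
      · exact ⟨-z (Sum.inl (Sum.inl j)), by rw [h]; ring⟩
    have hi0 : X i0 = 0 := by
      have := h1 i0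
      rwa [Finset.sum_eq_zero (fun c _ => by rw [if_neg (Ne.symm c.2), zero_mul]), add_zero] at this
    have hzc : ∀ c : {i : ι // i ≠ i0}, z (Sum.inr c) = 0 := by
      intro c
      have h2 := h1 c
      rw [Finset.sum_eq_single c (fun c' _ hc' => by
        rw [if_neg (fun h => hc' (Subtype.ext h.symm)), zero_mul]) (fun h => absurd (Finset.mem_univ c) h)]
        at h2
      simp only [if_true, one_mul] at h2
      have p1 := hpar c
      have p0 := hpar i0
      rw [hi0] at p0
      rcases hz (Sum.inr c) with h | h | h <;> omega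
    have hX0 : ∀ i, X i = 0 := by
      intro i
      have := h1 i
      rwa [Finset.sum_eq_zero (fun c _ => by rw [hzc c, mul_zero]), add_zero] at this
    have hY0 : ∀ i, Y i = 0 := by
      intro i
      have := top i
      rw [Finset.sum_eq_zero (fun c _ => hzc c), hX0 i] at this
      linarith
    have x0 := hK (fun j => z (Sum.inl (Sum.inl j))) (fun j => hz _) hX0
    have y0 := hK (fun j => z (Sum.inl (Sum.inr j))) (fun j => hz _) hY0
    ext k
    rcases k with (j | j) | c
    · exact congrFun x0 j
    · exact congrFun y0 j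
    · exact hzc c

lemma det_pow (k : ℕ) : Det (2 ^ k) (k * 2 ^ (k - 1) + 1) := by
  induction k with
  | zero => simpa using det_one
  | succ k ih =>
    have h := det_double Nat.one_le_two_pow ih
    have e1 : 2 * 2 ^ k = 2 ^ (k + 1) := by ring
    have e2 : 2 * (k * 2 ^ (k - 1) + 1) + (2 ^ k - 1) = (k + 1) * 2 ^ (k + 1 - 1) + 1 := by
      have h1 : 1 ≤ 2 ^ k := Nat.one_le_two_pow
      rw [Nat.add_sub_cancel]
      rcases Nat.eq_zero_or_pos k with rfl | hk
      · norm_num
      · obtain ⟨j, rfl⟩ : ∃ j, k = j + 1 := ⟨k - 1, by omega⟩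
        rw [Nat.add_sub_cancel]
        have : 2 * ((j + 1) * 2 ^ j + 1) = (j + 1) * 2 ^ (j + 1) + 2 := by ring
        rw [this]
        have : (j + 1 + 1) * 2 ^ (j + 1) = (j + 1) * 2 ^ (j + 1) + 2 ^ (j + 1) := by ring
        rw [this]
        omega
    rwa [e1, e2] at h

lemma dim_of_det {m d : ℕ} (h : Det m d) : dim d ≤ m := by
  classical
  obtain ⟨ι, κ, _, _, hι, hκ, A, hA, hK⟩ := h
  obtain ⟨e⟩ : Nonempty (Fin d ≃ κ) := by
    rw [← Fintype.card_eq]
    simp [hκ]
  have hsg : ∀ i j, sg (decide (A i j = 1)) = A i j := by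
    intro i j
    rcases hA i j with h | h <;> simp [h, sg]
  have hV : VV ((univ : Finset ι).image (fun i (j : Fin d) => decide (A i (e j) = 1))) := by
    intro z hz
    have h0 := hK (fun k => z (e.symm k)) (fun k => hz.1 _) (fun i => ?_)
    · ext j
      have := congrFun h0 (e j)
      simpa using this
    · have h1 := hz.2 _ (Finset.mem_image_of_mem _ (Finset.mem_univ i))
      simp only [hsg] at h1
      rw [← h1, ← Equiv.sum_comp e]
      simp
  have := (dim_le hV).trans Finset.card_image_le
  rwa [Finset.card_univ, hι] at this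

/-- The exceptional dimensions and their number. -/
theorem result :
    (∀ d : ℕ, 1 ≤ d → dim d ≠ edim d →
      4 ≤ d ∧ Even d ∧ edim d = dim (d - 1) ∧ dim d = dim (d - 1) + 1) ∧
    (∀ k : ℕ, (Exc (k * 2 ^ (k - 1) + 1)).card ≤ 2 ^ k) ∧
    (∀ x : ℕ, (Nat.log 2 x - 1) * (Exc x).card ≤ 8 * x) := by
  have hpow : ∀ k, dim (k * 2 ^ (k - 1) + 1) ≤ 2 ^ k := fun k => dim_of_det (det_pow k)
  refine ⟨fun d hd h => ?_, fun k => (card_Exc _).trans (hpow k), fun x => ?_⟩
  · have h3 := three_le hd h
    have h4 := exceptional h3 h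
    refine ⟨?_, h4⟩
    obtain ⟨c, hc⟩ := h4.1
    omega
  rcases Nat.lt_or_ge (Nat.log 2 x) 2 with hl | hl
  · have : Nat.log 2 x - 1 = 0 := by omega
    rw [this, zero_mul]
    exact Nat.zero_le _
  have hx4 : 4 ≤ x := by
    have hx0 : x ≠ 0 := by
      rintro rfl
      simp at hl
    have := Nat.pow_le_of_le_log hx0 hl
    simpa using this
  have hex : ∃ k, x ≤ k * 2 ^ (k - 1) + 1 := ⟨x, by
    have : 1 ≤ 2 ^ (x - 1) := Nat.one_le_two_pow
    nlinarith⟩
  classical
  set k := Nat.find hex with hk
  have h1 : x ≤ k * 2 ^ (k - 1) + 1 := Nat.find_spec hex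
  have hk2 : 2 ≤ k := by
    by_contra hc
    have : k = 0 ∨ k = 1 := by omega
    rcases this with h | h <;> rw [h] at h1 <;> simp at h1 <;> omega
  obtain ⟨j, hj⟩ : ∃ j, k = j + 2 := ⟨k - 2, by omega⟩
  have h2 : (j + 1) * 2 ^ j + 1 < x := by
    have := Nat.find_min hex (m := j + 1) (by omega)
    simpa using this
  have h3 : (Exc x).card ≤ 2 ^ k :=
    (card_Exc x).trans ((dim_mono h1).trans (hpow k))
  have h4 : Nat.log 2 x < 2 * k := by
    apply Nat.log_lt_of_lt_pow (by omega)
    have h5 : k < 2 ^ k := Nat.lt_two_pow_self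
    have h6 : 2 ^ (2 * k) = 2 ^ k * 2 ^ k := by rw [two_mul, pow_add]
    have h7 : 2 ^ k = 2 * 2 ^ (k - 1) := by
      rw [← pow_succ']
      congr 1
      omega
    have h8 : 1 ≤ 2 ^ (k - 1) := Nat.one_le_two_pow
    rw [h6]
    nlinarith
  have h9 : (Nat.log 2 x - 1) * (Exc x).card ≤ (2 * (k - 1)) * 2 ^ k :=
    Nat.mul_le_mul (by omega) h3
  refine h9.trans ?_
  rw [hj]
  have e : 2 * (j + 2 - 1) * 2 ^ (j + 2) = 8 * ((j + 1) * 2 ^ j) := by
    rw [show j + 2 - 1 = j + 1 by omega]
    ring
  rw [e]
  omega

end Pool.Agent.Results.MP_41989c_co.ExceptionsHaveDensityZero
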